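import Mathlib

/-!
# Balanced versus unbalanced small subsets with large sumsets: the rounding effect at `n = 5`

If `c` has the balanced property, then `c ≥ 16 / 5`: for `n = 5` and the arithmetic progressions
`A = B = {0, 1, 2, 3, 4}` modulo `17` one needs subsets of at least four elements. Hence Q1 fails if some pair
`(c, c₁)` with `c < 16 / 5` is admissible, in particular if in `ℤ / p` three elements of `B` always suffice for
`|A + B'| ≥ 2 n - 1`, `n ≤ p / 3`, as they do in `ℤ` by a theorem of Bollobás, Leader and Tiba.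
-/

set_option autoImplicit false

open scoped Pointwise

namespace Pool.Agent.Results.MP_10cf1f_co.ThreeElements

/-- The pair `(c, c₁)` is admissible. -/
def Admissible (c : ℝ) (c₁ : ℕ → ℝ) : Prop :=
  ∀ p : ℕ, p.Prime → ∀ n : ℕ, 1 ≤ n → 3 * n ≤ p → ∀ A B : Finset (ZMod p), A.card = n → B.card = n →
    ∃ A' ⊆ A, ∃ B' ⊆ B, (A'.card : ℝ) ≤ c₁ n ∧ (B'.card : ℝ) ≤ c * n / c₁ n ∧ 2 * n - 1 ≤ (A' + B').card

/-- The constant `c` has the balanced property. -/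
def Balanced (c : ℝ) : Prop :=
  ∀ p : ℕ, p.Prime → ∀ n : ℕ, 1 ≤ n → 3 * n ≤ p → ∀ A B : Finset (ZMod p), A.card = n → B.card = n →
    ∃ A' ⊆ A, ∃ B' ⊆ B, A'.card = B'.card ∧ (A'.card : ℝ) ≤ Real.sqrt (c * n) ∧ 2 * n - 1 ≤ (A' + B').card

/-- Three elements of `B` suffice. -/
def ThreeSuffice : Prop :=
  ∀ p : ℕ, p.Prime → ∀ n : ℕ, 1 ≤ n → 3 * n ≤ p → ∀ A B : Finset (ZMod p), A.card = n → B.card = n →
    ∃ B' ⊆ B, B'.card ≤ 3 ∧ 2 * n - 1 ≤ (A + B').card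

lemma five (A' B' : Finset (ZMod 17)) (hA : A' ⊆ {0, 1, 2, 3, 4}) (hB : B' ⊆ {0, 1, 2, 3, 4})
    (ha : A'.card = 3) (hb : B'.card = 3) : (A' + B').card ≤ 8 := by
  by_contra hlt
  push Not at hlt
  have key : ∀ a ∈ ({0, 1, 2, 3, 4} : Finset (ZMod 17)), ∀ b ∈ ({0, 1, 2, 3, 4} : Finset (ZMod 17)),
      a + b ∈ ({0, 1, 2, 3, 4, 5, 6, 7, 8} : Finset (ZMod 17)) ∧ (a + b = 0 → a = 0 ∧ b = 0) ∧
        (a + b = 8 → a = 4 ∧ b = 4) := by
    decide +kernel
  have hsub : A' + B' ⊆ ({0, 1, 2, 3, 4, 5, 6, 7, 8} : Finset (ZMod 17)) := by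
    intro x hx
    obtain ⟨a, ha', b, hb', rfl⟩ := Finset.mem_add.1 hx
    exact (key a (hA ha') b (hB hb')).1
  have hcard9 : ({0, 1, 2, 3, 4, 5, 6, 7, 8} : Finset (ZMod 17)).card = 9 := by decide +kernel
  have heq : A' + B' = {0, 1, 2, 3, 4, 5, 6, 7, 8} :=
    Finset.eq_of_subset_of_card_le hsub (by rw [hcard9]; omega)
  have h0 : (0 : ZMod 17) ∈ A' + B' := by
    rw [heq]
    decide +kernel
  have h8 : (8 : ZMod 17) ∈ A' + B' := by
    rw [heq]
    decide +kernel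
  obtain ⟨a, ha1, b, hb1, hab⟩ := Finset.mem_add.1 h0
  obtain ⟨e1, e2⟩ := (key a (hA ha1) b (hB hb1)).2.1 hab
  obtain ⟨a', ha2, b', hb2, hab'⟩ := Finset.mem_add.1 h8
  obtain ⟨e3, e4⟩ := (key a' (hA ha2) b' (hB hb2)).2.2 hab'
  subst e1 e2 e3 e4
  have h9 : (A' + B').card = A'.card * B'.card := by
    have h10 : (A' + B').card ≤ A'.card * B'.card := Finset.card_add_le
    rw [ha, hb] at h10 ⊢
    omega
  have hinj := Finset.card_add_iff.1 h9
  have h11 : ((0 : ZMod 17), (4 : ZMod 17)) = ((4 : ZMod 17), (0 : ZMod 17)) := by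
    apply hinj
    · exact ⟨ha1, hb2⟩
    · exact ⟨ha2, hb1⟩
    · exact (by decide +kernel : (0 : ZMod 17) + 4 = 4 + 0)
  exact absurd (congrArg Prod.fst h11) (by decide +kernel)

theorem balanced_ge (c : ℝ) (h : Balanced c) : 16 / 5 ≤ c := by
  by_contra hc
  push Not at hc
  obtain ⟨A', hA, B', hB, h1, h2, h3⟩ := h 17 (by norm_num) 5 (by norm_num) (by norm_num)
    {0, 1, 2, 3, 4} {0, 1, 2, 3, 4} (by decide +kernel) (by decide +kernel)
  have h4 : Real.sqrt (c * (5 : ℕ)) < 4 := by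
    rw [Real.sqrt_lt' (by norm_num)]
    push_cast
    linarith
  have h5 : A'.card < 4 := by
    have : (A'.card : ℝ) < 4 := lt_of_le_of_lt h2 h4
    exact_mod_cast this
  have h6 : (A' + B').card ≤ A'.card * B'.card := Finset.card_add_le
  have h7 : A'.card = 3 := by
    by_contra h8
    have h9 : A'.card ≤ 2 := by omega
    have h10 : A'.card * B'.card ≤ 2 * 2 := Nat.mul_le_mul h9 (h1 ▸ h9)
    omega
  have h8 := five A' B' hA hB h7 (h1 ▸ h7)
  omega

theorem result :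
    (∀ c : ℝ, Balanced c → 16 / 5 ≤ c) ∧
    (∀ (c : ℝ) (c₁ : ℕ → ℝ), c < 16 / 5 → Admissible c c₁ → Admissible c c₁ ∧ ¬ Balanced c) ∧
    (ThreeSuffice → ∃ (c : ℝ) (c₁ : ℕ → ℝ), 0 < c ∧ (∀ n, 0 < c₁ n) ∧ Admissible c c₁ ∧ ¬ Balanced c) := by
  refine ⟨balanced_ge, fun c c₁ hc h => ⟨h, fun hb => absurd (balanced_ge c hb) (by linarith)⟩, fun h => ?_⟩
  refine ⟨3, fun n => max (n : ℝ) 1, by norm_num, fun n => by positivity, ?_, fun hb => ?_⟩
  · intro p hp n hn h3 A B hA hB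
    obtain ⟨B', hB', hc, hs⟩ := h p hp n hn h3 A B hA hB
    have hn1 : (1 : ℝ) ≤ n := by exact_mod_cast hn
    refine ⟨A, subset_rfl, B', hB', ?_, ?_, hs⟩
    · rw [hA]
      exact le_max_left _ _
    · show (B'.card : ℝ) ≤ 3 * (n : ℝ) / max (n : ℝ) 1
      rw [max_eq_left hn1, mul_div_assoc, div_self (by linarith), mul_one]
      exact_mod_cast hc
  · have := balanced_ge 3 hb
    norm_num at this

end Pool.Agent.Results.MP_10cf1f_co.ThreeElements
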